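import Pool.Agent.Q255.L2.StmG
import Pool.Agent.Q255.EP.Fin
import Pool.Agent.Q190.IR.Dpi

/-!
# Project L2 (helper255), job GLF: laws of information `x^δ` for which the Gaussian law fails
-/

set_option autoImplicit false

namespace Pool.Agent.Q154.L2

open Filter Topology MeasureTheory ProbabilityTheory
open Pool.Agent.Q255.IC Pool.Agent.Q255.IR Pool.Agent.Q255.EP Pool.Agent.Q255.L2
open Pool.Agent.Q163.GC (W Mf)
open Pool.Agent.Y293.SF (mu)

/-- the proportion of the centres with a large window sum -/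
noncomputable def FF (T θ X : ℝ) (f : ℕ → ℝ) : ℝ :=
  (volume {x : ℝ | x ∈ Set.Icc X (2 * X) ∧ T * √(X ^ θ) < Mf f x (X ^ θ)}).toReal / X

lemma vol_Icc (X : ℝ) (hX : 0 < X) : (volume (Set.Icc X (2 * X))).toReal = X := by
  rw [Real.volume_Icc, ENNReal.toReal_ofReal (by linarith)]
  ring

lemma FF_nonneg (T θ X : ℝ) (hX : 0 < X) (f : ℕ → ℝ) : 0 ≤ FF T θ X f :=
  div_nonneg ENNReal.toReal_nonneg hX.le

lemma FF_le_one (T θ X : ℝ) (hX : 0 < X) (f : ℕ → ℝ) : FF T θ X f ≤ 1 := by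
  unfold FF
  rw [div_le_one hX]
  calc _ ≤ (volume (Set.Icc X (2 * X))).toReal := by
        apply ENNReal.toReal_mono
        · rw [Real.volume_Icc]; exact ENNReal.ofReal_ne_top
        · exact measure_mono (fun x hx => hx.1)
    _ = X := vol_Icc X hX

lemma FF_compl (T θ X : ℝ) (hX : 0 < X) (f : ℕ → ℝ) : FF T θ X f =
    1 - (volume {x : ℝ | x ∈ Set.Icc X (2 * X) ∧ Mf f x (X ^ θ) ≤ T * √(X ^ θ)}).toReal / X := by
  have hm : MeasurableSet {x : ℝ | T * √(X ^ θ) < Mf f x (X ^ θ)} :=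
    measurableSet_lt measurable_const (Pool.Agent.Q163.CL.Mf_meas f _)
  have h1 := measure_inter_add_sdiff (μ := volume) (Set.Icc X (2 * X)) hm
  have e1 : Set.Icc X (2 * X) ∩ {x : ℝ | T * √(X ^ θ) < Mf f x (X ^ θ)} =
      {x : ℝ | x ∈ Set.Icc X (2 * X) ∧ T * √(X ^ θ) < Mf f x (X ^ θ)} := rfl
  have e2 : Set.Icc X (2 * X) \ {x : ℝ | T * √(X ^ θ) < Mf f x (X ^ θ)} =
      {x : ℝ | x ∈ Set.Icc X (2 * X) ∧ Mf f x (X ^ θ) ≤ T * √(X ^ θ)} := by
    ext x
    constructor
    · rintro ⟨g1, g2⟩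
      exact ⟨g1, not_lt.1 g2⟩
    · rintro ⟨g1, g2⟩
      exact ⟨g1, not_lt.2 g2⟩
  rw [e1, e2] at h1
  have hfin : ∀ s : Set ℝ, s ⊆ Set.Icc X (2 * X) → volume s ≠ ⊤ := by
    intro s hs
    apply ne_top_of_le_ne_top _ (measure_mono hs)
    rw [Real.volume_Icc]; exact ENNReal.ofReal_ne_top
  have h2 := congrArg ENNReal.toReal h1
  rw [ENNReal.toReal_add (hfin _ (fun x hx => hx.1)) (hfin _ (fun x hx => hx.1)), vol_Icc X hX] at h2
  unfold FF
  field_simp
  linarith

/-- the sum in the statement of the law is a window sum -/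
lemma sum_eq_Mf (f : ℕ → ℝ) (x H : ℝ) :
    ∑ n ∈ (Finset.range (⌊x + H⌋₊ + 1)).filter (fun n : ℕ => |(n : ℝ) - x| < H / 2), f n =
      Mf f x H := by
  unfold Mf
  refine Finset.sum_congr ?_ fun _ _ => rfl
  ext n
  rw [Finset.mem_filter, Finset.mem_filter, Finset.mem_range, Finset.mem_range]
  refine and_congr_left fun hc => ?_
  have h1 : (n : ℝ) ≤ x + H := by
    have h3 := (abs_lt.1 hc).2
    have h4 := lt_of_le_of_lt (abs_nonneg _) hc
    linarith
  constructor
  · intro h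
    have h2 : ⌊x + H⌋₊ ≤ ⌈x + H⌉₊ := Nat.floor_le_ceil _
    omega
  · intro _
    have h2 : n ≤ ⌊x + H⌋₊ := Nat.le_floor h1
    omega

/-- under the Gaussian law the proportion tends to that of the normal law -/
lemma FF_tendsto {δ : ℝ} (hδ0 : 0 < δ) (hδ1 : δ < 1) (t : ℝ) (f : ℕ → ℝ) (hG : GaussianLaw f) :
    Tendsto (fun j : ℕ => FF (t / √(Real.pi ^ 2 / 6)) (1 - δ / 2) (j : ℝ) f) atTop
      (𝓝 (1 - cdf (gaussianReal 0 1) t)) := by
  have h1 := hG (δ / 4) (by linarith) (by linarith) (fun X => X ^ (1 - δ / 2)) (by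
    filter_upwards [eventually_gt_atTop 1] with X hX
    constructor
    · exact Real.rpow_lt_rpow_of_exponent_lt hX (by linarith)
    · exact Real.rpow_lt_rpow_of_exponent_lt hX (by linarith)) t
  have h2 := h1.comp tendsto_natCast_atTop_atTop
  have h3 := h2.const_sub 1
  refine h3.congr' ?_
  filter_upwards [eventually_gt_atTop 0] with j hj
  have hX : (0 : ℝ) < (j : ℝ) := by exact_mod_cast hj
  rw [FF_compl _ _ _ hX]
  simp only [Function.comp]
  congr 4
  ext x
  simp only [Set.mem_ofPred_eq]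
  refine and_congr_right fun _ => ?_
  rw [sum_eq_Mf]
  have hp : 0 < √(Real.pi ^ 2 / 6) := Real.sqrt_pos.2 (by positivity)
  have hH : 0 < √((j : ℝ) ^ (1 - δ / 2) / (Real.pi ^ 2 / 6)) := Real.sqrt_pos.2 (by positivity)
  rw [div_le_iff₀ hH, Real.sqrt_div (by positivity)]
  have : t * (√((j : ℝ) ^ (1 - δ / 2)) / √(Real.pi ^ 2 / 6)) =
      t / √(Real.pi ^ 2 / 6) * √((j : ℝ) ^ (1 - δ / 2)) := by ring
  rw [this]

theorem glf (h1 : Pool.Agent.Q255.L2.S_PZ) (h2 : Pool.Agent.Q255.L2.S_COND)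
    (h3 : Pool.Agent.Q255.EP.S_LAWE) : Pool.Agent.Q255.L2.S_GLF := by
  intro δ hδ0 hδ1
  have hd : ∀ k, |(-(pr k : ℝ) ^ ((δ - 1) / 2))| ≤ 1 := by
    intro k
    have hp : (1 : ℝ) ≤ pr k := by
      have : 1 ≤ pr k := by
        unfold pr
        exact (Nat.prime_nth_prime k).one_lt.le
      exact_mod_cast this
    rw [abs_neg, abs_of_nonneg (by positivity)]
    exact Real.rpow_le_one_of_one_le_of_nonpos hp (by linarith)
  obtain ⟨ν, hν, hD, hE⟩ := h3 _ hd
  have hexp : ((1 + δ) / 2 - 1 : ℝ) = (δ - 1) / 2 := by ring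
  obtain ⟨c, hc, hcT⟩ := h1 ν ((1 + δ) / 2) (1 - δ / 2) (by linarith) (by linarith) (by linarith)
    (by linarith) (by rw [hexp]; exact hE)
  obtain ⟨t, ht⟩ : ∃ t : ℝ, 1 - cdf (gaussianReal 0 1) t < c / 4 := by
    have h4 := (tendsto_cdf_atTop (gaussianReal 0 1)).const_sub 1
    rw [sub_self] at h4
    have h5 := h4.eventually (gt_mem_nhds (show (0 : ℝ) < c / 4 by linarith))
    exact h5.exists
  set T : ℝ := t / √(Real.pi ^ 2 / 6) with hT
  set f : (ℕ → Bool) → ℕ → ℝ := fun ω n => mu n * cm ω n with hf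
  set F : ℕ → (ℕ → Bool) → ℝ := fun j ω => FF T (1 - δ / 2) (j : ℝ) (f ω) with hF
  have hev : ∀ᶠ j : ℕ in atTop, c ≤ ∫ ω, F j ω ∂ν := tendsto_natCast_atTop_atTop.eventually (hcT T)
  obtain ⟨J₀, hJ₀⟩ := eventually_atTop.1 (hev.and (eventually_gt_atTop 0))
  have hint : ∀ j, J₀ ≤ j → Integrable (F j) ν := by
    intro j hj
    by_contra hcon
    have h4 := (hJ₀ j hj).1
    rw [integral_undef hcon] at h4
    linarith
  have hpos : ∀ j, J₀ ≤ j → (0 : ℝ) < (j : ℝ) := fun j hj => by exact_mod_cast (hJ₀ j hj).2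
  -- the events
  set A : ℕ → Set (ℕ → Bool) := fun j => {ω | c / 2 ≤ F (j + J₀) ω} with hA
  have hAm : ∀ j, NullMeasurableSet (A j) ν := fun j =>
    nullMeasurableSet_le aemeasurable_const (hint (j + J₀) (by omega)).aemeasurable
  have hAν : ∀ j, ENNReal.ofReal (c / 2) ≤ ν (A j) := by
    intro j
    have h4 := (hJ₀ (j + J₀) (by omega)).1
    have h5 : ∫ ω, F (j + J₀) ω ∂ν ≤ ∫ ω, ((A j).indicator (fun _ => (1 : ℝ)) ω + c / 2) ∂ν := by
      apply integral_mono (hint _ (by omega))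
      · apply Integrable.add _ (integrable_const _)
        exact (integrable_const (1 : ℝ)).indicator₀ (hAm j)
      · intro ω
        simp only
        by_cases hω : ω ∈ A j
        · rw [Set.indicator_of_mem hω]
          have := FF_le_one T (1 - δ / 2) _ (hpos (j + J₀) (by omega)) (f ω)
          simp only [hF]
          linarith
        · rw [Set.indicator_of_notMem hω]
          have : F (j + J₀) ω < c / 2 := not_le.1 hω
          linarith
    rw [integral_add ((integrable_const (1 : ℝ)).indicator₀ (hAm j)) (integrable_const _),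
      integral_indicator₀ (hAm j), setIntegral_const, integral_const] at h5
    simp only [smul_eq_mul, mul_one, probReal_univ, one_mul] at h5
    have h6 : c / 2 ≤ ν.real (A j) := by linarith
    rw [ENNReal.ofReal_le_iff_le_toReal (measure_ne_top _ _)]
    exact h6
  set Bs : ℕ → Set (ℕ → Bool) := fun J => ⋃ j, A (j + J) with hBs
  have hBm : ∀ J, NullMeasurableSet (Bs J) ν := fun J => NullMeasurableSet.iUnion fun j => hAm _
  have hBanti : Antitone Bs := by
    intro J J' hJJ ω hω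
    simp only [hBs, Set.mem_iUnion] at hω ⊢
    obtain ⟨j, hj⟩ := hω
    exact ⟨j + (J' - J), by rw [show j + (J' - J) + J = j + J' by omega]; exact hj⟩
  have hlim := tendsto_measure_iInter_atTop hBm hBanti ⟨0, measure_ne_top ν _⟩
  have hge : ENNReal.ofReal (c / 2) ≤ ν (⋂ J, Bs J) := by
    refine ge_of_tendsto' hlim fun J => ?_
    refine (hAν J).trans (measure_mono ?_)
    intro ω hω
    simp only [hBs, Set.mem_iUnion]
    exact ⟨0, by rw [zero_add]; exact hω⟩
  obtain ⟨E, hEsub, hEm, hEae⟩ := (NullMeasurableSet.iInter hBm).exists_measurable_subset_ae_eq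
  have hEν : ν E ≠ 0 := by
    rw [measure_congr hEae]
    intro h0
    rw [h0] at hge
    have : ENNReal.ofReal (c / 2) = 0 := le_antisymm hge zero_le
    rw [ENNReal.ofReal_eq_zero] at this
    linarith
  have hfail : ∀ ω ∈ E, ¬ GaussianLaw (f ω) := by
    intro ω hω hG
    have h4 := FF_tendsto hδ0 hδ1 t (f ω) hG
    have h5 := h4.eventually (gt_mem_nhds (show 1 - cdf (gaussianReal 0 1) t < c / 2 by linarith))
    obtain ⟨J, hJ⟩ := eventually_atTop.1 h5
    have h6 := hEsub hω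
    rw [Set.mem_iInter] at h6
    have h7 := h6 J
    simp only [hBs, Set.mem_iUnion] at h7
    obtain ⟨j, hj⟩ := h7
    have h8 : c / 2 ≤ F (j + J + J₀) ω := hj
    have h9 := hJ (j + J + J₀) (by omega)
    simp only [hF] at h8
    linarith
  obtain ⟨hprob, C, hC⟩ := h2 ν E hEm hEν
  refine ⟨ProbabilityTheory.cond ν E, hprob, ⟨|C| * (δ⁻¹ + 1), ?_⟩, ?_⟩
  · intro x hx
    have hDn : 0 ≤ D ν (Nat.primeCounting x) := (Pool.Agent.Q190.IR.t_DPI ν _ ∅).1
    have hDx : D ν (Nat.primeCounting x) ≤ δ⁻¹ * (x : ℝ) ^ δ :=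
      (hD _).trans (sum_pr_le hδ0 hδ1.le x)
    have hx1 : (1 : ℝ) ≤ (x : ℝ) ^ δ := Real.one_le_rpow (by exact_mod_cast hx) hδ0.le
    calc D (ProbabilityTheory.cond ν E) (Nat.primeCounting x)
        ≤ C * (D ν (Nat.primeCounting x) + 1) := hC _
      _ ≤ |C| * (D ν (Nat.primeCounting x) + 1) :=
          mul_le_mul_of_nonneg_right (le_abs_self C) (by linarith)
      _ ≤ |C| * ((δ⁻¹ + 1) * (x : ℝ) ^ δ) := by
          apply mul_le_mul_of_nonneg_left _ (abs_nonneg C)
          rw [add_mul, one_mul]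
          linarith
      _ = _ := by ring
  · have h4 : ∀ᵐ ω ∂(ProbabilityTheory.cond ν E), ω ∈ E := by
      rw [ProbabilityTheory.cond, ae_iff, Measure.smul_apply, smul_eq_mul]
      have : (ν.restrict E) {a | a ∉ E} = 0 := by
        rw [Measure.restrict_apply' hEm]
        have : {a | a ∉ E} ∩ E = ∅ := by
          ext a
          simp
        rw [this, measure_empty]
      rw [this, mul_zero]
    filter_upwards [h4] with ω hω
    exact hfail ω hω

end Pool.Agent.Q154.L2
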