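import Pool.Agent.Q255.L2.StmN
import Pool.Agent.Helper112.Arith

/-!
# Project L2N: norm and Lipschitz bounds of the coefficients
-/

set_option autoImplicit false

namespace Pool.Agent.Q154.L2

open Finset MeasureTheory
open Pool.Agent.Q255.L2

/-- homogeneity of the norm -/
lemma nn_smul (X : ℕ) (w : ℕ → ℝ) (c : ℝ) : nn X (fun l => c * w l) = c ^ 2 * nn X w := by
  unfold nn
  rw [Finset.mul_sum]
  refine Finset.sum_congr rfl fun s _ => ?_
  rw [← sq_abs c, ← mul_pow, Finset.mul_sum]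
  congr 1
  refine Finset.sum_congr rfl fun r _ => ?_
  rw [abs_mul]

lemma nn_nonneg (X : ℕ) (w : ℕ → ℝ) : 0 ≤ nn X w := by
  unfold nn
  exact Finset.sum_nonneg fun _ _ => sq_nonneg _

lemma dN_le_pow (k N n : ℕ) : dN k N n ≤ N ^ k := by
  classical
  unfold dN
  refine (Finset.card_filter_le _ _).trans ?_
  rw [Fintype.card_piFinset]
  simp

lemma dN_le_div (k N n : ℕ) : dN k N n ≤ n.divisors.card ^ k := by
  classical
  unfold dN
  have h1 : ((Fintype.piFinset fun _ : Fin k => Icc 1 N).filter fun a => ∏ j, a j = n) ⊆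
      Fintype.piFinset fun _ : Fin k => n.divisors := by
    intro a ha
    rw [mem_filter, Fintype.mem_piFinset] at ha
    rw [Fintype.mem_piFinset]
    intro j
    rw [Nat.mem_divisors]
    refine ⟨?_, ?_⟩
    · rw [← ha.2]
      exact Finset.dvd_prod_of_mem _ (mem_univ j)
    · rw [← ha.2]
      refine (Finset.prod_pos fun i _ => ?_).ne'
      have := ha.1 i
      rw [mem_Icc] at this
      omega
  refine (Finset.card_le_card h1).trans ?_
  rw [Fintype.card_piFinset]
  simp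

lemma dN_le (k : ℕ) (hk : 1 ≤ k) {ε : ℝ} (hε : 0 < ε) : ∃ C : ℝ, 1 ≤ C ∧ ∀ N n : ℕ, 1 ≤ n →
    n ≤ N ^ k → (dN k N n : ℝ) ≤ C * (N : ℝ) ^ ε := by
  have hkr : (0 : ℝ) < k := by exact_mod_cast hk
  obtain ⟨C, hC, h⟩ := Pool.Agent.Helper112.divisor_bound (ε / (k * k)) (by positivity)
  refine ⟨(max C 1) ^ k, one_le_pow₀ (le_max_right _ _), ?_⟩
  intro N n hn hnN
  have hN0 : (0 : ℝ) ≤ N := Nat.cast_nonneg N
  have h1 : (dN k N n : ℝ) ≤ (n.divisors.card : ℝ) ^ k := by exact_mod_cast dN_le_div k N n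
  have h2 : (n.divisors.card : ℝ) ≤ max C 1 * ((N : ℝ) ^ k) ^ (ε / (k * k)) := by
    refine (h n hn).trans ?_
    refine mul_le_mul (le_max_left _ _) ?_ (by positivity) (by positivity)
    refine Real.rpow_le_rpow (Nat.cast_nonneg n) ?_ (by positivity)
    exact_mod_cast hnN
  refine h1.trans ((pow_le_pow_left₀ (Nat.cast_nonneg _) h2 k).trans (le_of_eq ?_))
  rw [mul_pow]
  congr 1
  rw [← Real.rpow_natCast (N : ℝ) k, ← Real.rpow_mul hN0, ← Real.rpow_natCast (_ : ℝ) k,
    ← Real.rpow_mul hN0]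
  congr 1
  field_simp

lemma cos_int (T₁ T₂ c : ℝ) (hT : T₁ ≤ T₂) (hc : c ≠ 0) :
    |∫ t in T₁..T₂, Real.cos (t * c)| ≤ 2 * min (1 + (T₂ - T₁)) (1 / |c|) := by
  have h1 : |∫ t in T₁..T₂, Real.cos (t * c)| ≤ T₂ - T₁ := by
    have := intervalIntegral.norm_integral_le_of_norm_le_const (a := T₁) (b := T₂)
      (f := fun t => Real.cos (t * c)) (C := 1) (fun t _ => by
        rw [Real.norm_eq_abs]
        exact Real.abs_cos_le_one _)
    rw [one_mul, abs_of_nonneg (by linarith), Real.norm_eq_abs] at this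
    exact this
  have h2 : |∫ t in T₁..T₂, Real.cos (t * c)| ≤ 2 * (1 / |c|) := by
    have e : ∫ t in T₁..T₂, Real.cos (t * c) = c⁻¹ * (Real.sin (T₂ * c) - Real.sin (T₁ * c)) := by
      rw [intervalIntegral.integral_comp_mul_right (fun x => Real.cos x) hc, integral_cos,
        smul_eq_mul]
    rw [e, abs_mul, abs_inv]
    have h3 : |Real.sin (T₂ * c) - Real.sin (T₁ * c)| ≤ 2 := by
      have h4 := Real.abs_sin_le_one (T₂ * c)
      have h5 := Real.abs_sin_le_one (T₁ * c)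
      have h6 := abs_sub (Real.sin (T₂ * c)) (Real.sin (T₁ * c))
      linarith
    calc |c|⁻¹ * |Real.sin (T₂ * c) - Real.sin (T₁ * c)| ≤ |c|⁻¹ * 2 :=
          mul_le_mul_of_nonneg_left h3 (by positivity)
      _ = 2 * (1 / |c|) := by ring
  rw [mul_min_of_nonneg _ _ (by norm_num : (0 : ℝ) ≤ 2)]
  refine le_min ?_ h2
  linarith

lemma cos_diff (T₁ T₂ T₁' T₂' c : ℝ) :
    |(∫ t in T₁..T₂, Real.cos (t * c)) - ∫ t in T₁'..T₂', Real.cos (t * c)| ≤
      |T₁ - T₁'| + |T₂ - T₂'| := by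
  have hi : ∀ a b : ℝ, IntervalIntegrable (fun t => Real.cos (t * c)) volume a b := fun a b =>
    (Real.continuous_cos.comp (by fun_prop)).intervalIntegrable _ _
  have hb : ∀ a b : ℝ, |∫ t in a..b, Real.cos (t * c)| ≤ |b - a| := by
    intro a b
    have := intervalIntegral.norm_integral_le_of_norm_le_const (a := a) (b := b)
      (f := fun t => Real.cos (t * c)) (C := 1) (fun t _ => by
        rw [Real.norm_eq_abs]
        exact Real.abs_cos_le_one _)
    rw [one_mul, Real.norm_eq_abs] at this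
    exact this
  have e : (∫ t in T₁..T₂, Real.cos (t * c)) - ∫ t in T₁'..T₂', Real.cos (t * c) =
      (∫ t in T₁..T₁', Real.cos (t * c)) + ∫ t in T₂'..T₂, Real.cos (t * c) := by
    have h1 := intervalIntegral.integral_add_adjacent_intervals (hi T₁ T₁') (hi T₁' T₂')
    have h2 := intervalIntegral.integral_add_adjacent_intervals (hi T₁ T₂') (hi T₂' T₂)
    linarith
  rw [e]
  refine (abs_add_le _ _).trans ?_
  have h1 := hb T₁ T₁'
  have h2 := hb T₂' T₂
  rw [abs_sub_comm] at h1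
  linarith

lemma one_le_sqrt_mul {a b : ℕ} (ha : 1 ≤ a) (hb : 1 ≤ b) : 1 ≤ √((a : ℝ) * b) := by
  rw [Real.one_le_sqrt]
  have h1 : (1 : ℝ) ≤ a := by exact_mod_cast ha
  have h2 : (1 : ℝ) ≤ b := by exact_mod_cast hb
  nlinarith

theorem mw (hMN : S_MN) : S_MW := by
  classical
  intro k ε hk hε
  have hkr : (1 : ℝ) ≤ k := by exact_mod_cast hk
  have hk0 : (0 : ℝ) < k := by linarith
  obtain ⟨C1, hC1, hMN1⟩ := hMN (ε / (2 * k)) (by positivity)
  obtain ⟨D, hD, hdN⟩ := dN_le k hk (ε := ε / 8) (by positivity)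
  refine ⟨max (4 * D ^ 4 * C1) 1, le_trans zero_le_one (le_max_right _ _), ?_⟩
  intro N T₁ T₂ hN hT
  have hNr : (1 : ℝ) ≤ N := by exact_mod_cast hN
  have hN0 : (0 : ℝ) < N := by linarith
  set H := 1 + (T₂ - T₁) with hH
  have hH1 : 1 ≤ H := by linarith
  have hH0 : 0 < H := by linarith
  refine ⟨?_, ?_, ?_⟩
  · intro X
    set c : ℝ := 2 * (D * (N : ℝ) ^ (ε / 8)) ^ 2 with hc
    have hNε : 0 < (N : ℝ) ^ (ε / 8) := Real.rpow_pos_of_pos hN0 _
    have hc0 : 0 < c := by positivity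
    have hw : ∀ l, |c⁻¹ * wm k N T₁ T₂ l| ≤ if IsSquare l then 0 else
        ∑ p ∈ (Icc 1 (N ^ k) ×ˢ Icc 1 (N ^ k)).filter (fun p => p.1 * p.2 = l),
          min H (1 / |Real.log ((p.1 : ℝ) / p.2)|) / √((p.1 : ℝ) * p.2) := by
      intro l
      unfold wm
      by_cases hl : IsSquare l
      · rw [if_pos hl, if_pos hl, mul_zero, abs_zero]
      · rw [if_neg hl, if_neg hl, Finset.mul_sum]
        refine (Finset.abs_sum_le_sum_abs _ _).trans ?_
        refine Finset.sum_le_sum fun p hp => ?_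
        rw [mem_filter, mem_product, mem_Icc, mem_Icc] at hp
        obtain ⟨⟨⟨ha1, ha2⟩, hb1, hb2⟩, hpl⟩ := hp
        have hne : p.1 ≠ p.2 := by
          intro h
          apply hl
          rw [← hpl, h]
          exact ⟨p.2, rfl⟩
        have ha0 : (0 : ℝ) < p.1 := by exact_mod_cast ha1
        have hb0 : (0 : ℝ) < p.2 := by exact_mod_cast hb1
        have hlog : Real.log ((p.1 : ℝ) / p.2) ≠ 0 := by
          refine Real.log_ne_zero_of_pos_of_ne_one (by positivity) ?_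
          intro h
          rw [div_eq_one_iff_eq hb0.ne'] at h
          exact hne (by exact_mod_cast h)
        have h1 := cos_int T₁ T₂ _ hT hlog
        rw [← hH] at h1
        have hs := one_le_sqrt_mul ha1 hb1
        have hs0 : 0 < √((p.1 : ℝ) * p.2) := by linarith
        have e1 := hdN N p.1 ha1 ha2
        have e2 := hdN N p.2 hb1 hb2
        have hd1 : (0 : ℝ) ≤ dN k N p.1 := Nat.cast_nonneg _
        have hd2 : (0 : ℝ) ≤ dN k N p.2 := Nat.cast_nonneg _
        have hm0 : 0 ≤ min H (1 / |Real.log ((p.1 : ℝ) / p.2)|) := le_min hH0.le (by positivity)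
        rw [abs_mul, abs_mul, abs_inv, abs_of_pos hc0, abs_of_nonneg (by positivity :
          0 ≤ (dN k N p.1 : ℝ) * dN k N p.2 / √((p.1 : ℝ) * p.2))]
        have e3 : (dN k N p.1 : ℝ) * dN k N p.2 ≤ (D * (N : ℝ) ^ (ε / 8)) ^ 2 := by
          rw [sq]
          exact mul_le_mul e1 e2 hd2 (by positivity)
        have e4 : (dN k N p.1 : ℝ) * dN k N p.2 / √((p.1 : ℝ) * p.2) *
            |∫ t in T₁..T₂, Real.cos (t * Real.log ((p.1 : ℝ) / p.2))| ≤
            (D * (N : ℝ) ^ (ε / 8)) ^ 2 / √((p.1 : ℝ) * p.2) *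
              (2 * min H (1 / |Real.log ((p.1 : ℝ) / p.2)|)) :=
          mul_le_mul (div_le_div_of_nonneg_right e3 hs0.le) h1 (abs_nonneg _) (by positivity)
        refine (mul_le_mul_of_nonneg_left e4 (inv_nonneg.2 hc0.le)).trans (le_of_eq ?_)
        rw [hc]
        field_simp
    have h1 := hMN1 (N ^ k) X H (fun l => c⁻¹ * wm k N T₁ T₂ l) (Nat.one_le_pow _ _ (by omega))
      hH1 hw
    rw [nn_smul, inv_pow, inv_mul_le_iff₀ (by positivity)] at h1
    refine h1.trans ?_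
    have h2 : ((((N ^ k : ℕ) : ℝ)) * H) ^ (ε / (2 * k)) = (N : ℝ) ^ (ε / 2) * H ^ (ε / (2 * k)) := by
      push_cast
      rw [Real.mul_rpow (by positivity) hH0.le, ← Real.rpow_natCast (N : ℝ) k,
        ← Real.rpow_mul hN0.le]
      congr 2
      field_simp
    have h3 : H ^ (ε / (2 * k)) ≤ H ^ ε := by
      refine Real.rpow_le_rpow_of_exponent_le hH1 ?_
      rw [div_le_iff₀ (by positivity)]
      nlinarith
    have h4 : c ^ 2 = 4 * D ^ 4 * (N : ℝ) ^ (ε / 2) := by
      rw [hc]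
      have h5 : (N : ℝ) ^ (ε / 2) = ((N : ℝ) ^ (ε / 8)) ^ 4 := by
        rw [← Real.rpow_natCast, ← Real.rpow_mul hN0.le]
        congr 1
        push_cast
        ring
      rw [h5]
      ring
    rw [h2, h4]
    have h6 : (N : ℝ) ^ ε = (N : ℝ) ^ (ε / 2) * (N : ℝ) ^ (ε / 2) := by
      rw [← Real.rpow_add hN0]
      congr 1
      ring
    rw [Real.mul_rpow hN0.le hH0.le, h6]
    have h7 : 0 ≤ (N : ℝ) ^ (ε / 2) := Real.rpow_nonneg hN0.le _
    have h8 : 0 ≤ H ^ (ε / (2 * k)) := Real.rpow_nonneg hH0.le _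
    calc 4 * D ^ 4 * (N : ℝ) ^ (ε / 2) * (C1 * ((N : ℝ) ^ (ε / 2) * H ^ (ε / (2 * k))) * H) =
        (4 * D ^ 4 * C1) * ((N : ℝ) ^ (ε / 2) * (N : ℝ) ^ (ε / 2) * H ^ (ε / (2 * k)) * H) := by
          ring
      _ ≤ max (4 * D ^ 4 * C1) 1 * ((N : ℝ) ^ (ε / 2) * (N : ℝ) ^ (ε / 2) * H ^ ε * H) := by
          refine mul_le_mul (le_max_left _ _) ?_ (by positivity)
            (le_trans zero_le_one (le_max_right _ _))
          refine mul_le_mul_of_nonneg_right ?_ hH0.le
          exact mul_le_mul_of_nonneg_left h3 (by positivity)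
      _ = _ := by ring
  · intro l hl
    unfold wm
    have h1 : (Icc 1 (N ^ k) ×ˢ Icc 1 (N ^ k)).filter (fun p => p.1 * p.2 = l) = ∅ := by
      rw [Finset.filter_eq_empty_iff]
      intro p hp h
      rw [mem_product, mem_Icc, mem_Icc] at hp
      have h2 : p.1 * p.2 ≤ N ^ k * N ^ k := Nat.mul_le_mul hp.1.2 hp.2.2
      rw [← pow_add, ← two_mul, h] at h2
      omega
    rw [h1, Finset.sum_empty]
    simp
  · intro T₁' T₂' l hT'
    set δ := |T₁ - T₁'| + |T₂ - T₂'| with hδ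
    have hδ0 : 0 ≤ δ := by positivity
    have hgoal : |wm k N T₁ T₂ l - wm k N T₁' T₂' l| ≤ (N : ℝ) ^ (4 * k) * δ := by
      unfold wm
      by_cases hl : IsSquare l
      · rw [if_pos hl, if_pos hl, sub_zero, abs_zero]
        positivity
      · rw [if_neg hl, if_neg hl, ← Finset.sum_sub_distrib]
        refine (Finset.abs_sum_le_sum_abs _ _).trans ?_
        have hterm : ∀ p ∈ (Icc 1 (N ^ k) ×ˢ Icc 1 (N ^ k)).filter (fun p => p.1 * p.2 = l),
            |(dN k N p.1 : ℝ) * dN k N p.2 / √((p.1 : ℝ) * p.2) *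
              (∫ t in T₁..T₂, Real.cos (t * Real.log ((p.1 : ℝ) / p.2))) -
              (dN k N p.1 : ℝ) * dN k N p.2 / √((p.1 : ℝ) * p.2) *
              (∫ t in T₁'..T₂', Real.cos (t * Real.log ((p.1 : ℝ) / p.2)))| ≤
            (N : ℝ) ^ (2 * k) * δ := by
          intro p hp
          rw [mem_filter, mem_product, mem_Icc, mem_Icc] at hp
          obtain ⟨⟨⟨ha1, ha2⟩, hb1, hb2⟩, hpl⟩ := hp
          have hs := one_le_sqrt_mul ha1 hb1
          have hs0 : 0 < √((p.1 : ℝ) * p.2) := by linarith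
          have hd1 : (0 : ℝ) ≤ dN k N p.1 := Nat.cast_nonneg _
          have hd2 : (0 : ℝ) ≤ dN k N p.2 := Nat.cast_nonneg _
          have e1 : (dN k N p.1 : ℝ) ≤ (N : ℝ) ^ k := by exact_mod_cast dN_le_pow k N p.1
          have e2 : (dN k N p.2 : ℝ) ≤ (N : ℝ) ^ k := by exact_mod_cast dN_le_pow k N p.2
          rw [← mul_sub, abs_mul, abs_of_nonneg (by positivity :
            0 ≤ (dN k N p.1 : ℝ) * dN k N p.2 / √((p.1 : ℝ) * p.2))]
          have e3 : (dN k N p.1 : ℝ) * dN k N p.2 / √((p.1 : ℝ) * p.2) ≤ (N : ℝ) ^ (2 * k) := by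
            refine (div_le_self (by positivity) hs).trans ?_
            rw [two_mul, pow_add]
            exact mul_le_mul e1 e2 hd2 (by positivity)
          exact mul_le_mul e3 (cos_diff _ _ _ _ _) (abs_nonneg _) (by positivity)
        refine (Finset.sum_le_sum hterm).trans ?_
        rw [Finset.sum_const, nsmul_eq_mul]
        have hcard : ((((Icc 1 (N ^ k) ×ˢ Icc 1 (N ^ k)).filter
            (fun p => p.1 * p.2 = l)).card : ℕ) : ℝ) ≤ (N : ℝ) ^ (2 * k) := by
          have h1 : ((Icc 1 (N ^ k) ×ˢ Icc 1 (N ^ k)).filter (fun p => p.1 * p.2 = l)).card ≤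
              N ^ (2 * k) := by
            refine (Finset.card_filter_le _ _).trans ?_
            rw [Finset.card_product, Nat.card_Icc, Nat.add_sub_cancel, ← pow_add, ← two_mul]
          exact_mod_cast h1
        refine (mul_le_mul_of_nonneg_right hcard (by positivity)).trans (le_of_eq ?_)
        ring
    refine hgoal.trans ?_
    refine mul_le_mul_of_nonneg_right ?_ hδ0
    calc (N : ℝ) ^ (4 * k) ≤ (N : ℝ) ^ (8 * k) := pow_le_pow_right₀ hNr (by omega)
      _ ≤ max (4 * D ^ 4 * C1) 1 * (N : ℝ) ^ (8 * k) :=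
          le_mul_of_one_le_left (by positivity) (le_max_right _ _)

end Pool.Agent.Q154.L2
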